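import Pool.Agent.U112.CM.Main

/-!
# MP_768c9c_nt: CMO functions whose values at the primes are near regular values

A value `z` at the prime `p` is called regular if `|z| ≤ 1/p` or `z` is a real number with
`0 ≤ z ≤ (3/4) p ^ (-1/2)`. Let `f` be completely multiplicative with `∑ f(n) = 0`, and for each prime
`p` let `h(p)` be a regular value, or `h(p) = f(p)` if `f(p)` is any nonnegative real number. If
`∑_p √p |f(p) - h(p)|` converges, then `S_f(x)` is not `o(x ^ (-1/2))`. For example, the series over the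
primes `p`, for which `f(p)` is not a nonnegative real number, of `√p max (|f(p)| - 1/p, 0)` converges.

Counterexamples to Q1 are stable: if `S_f(x) = o(x ^ (-1/2))`, then the same holds for each
completely multiplicative function with values `h(p)` at the primes, if `|h(p)| ≤ (3/4) p ^ (-1/2)` or
`h(p) = f(p)`, and the series above converges.

The starting result `MP_a187e6_nt.CompletelyMultiplicative` has this if, for all but finitely many
primes, `|f(p)| ≤ 1/p` or `f(p)` is a nonnegative real number. Here no value needs to be of this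
kind. Proof: replace `f(p)` by `h(p)`, prime by prime; each step multiplies the bound for
`√x |S(x)|` by at most `1 + 4 √p |f(p) - h(p)|` and keeps `o(x ^ (-1/2))`; then use the theorem of the
library for the limit.
-/

set_option autoImplicit false

namespace Pool.Agent.Results.MP_768c9c_nt.NearRegularValues

open Filter Topology Finset Asymptotics

/-- `f` (only its values at `n ≥ 1` matter) is a CMO function: completely multiplicative, with
`∑ f(n)` convergent to `0` -/
structure IsCMO (f : ℕ → ℂ) : Prop where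
  one : f 1 = 1
  mul : ∀ m n : ℕ, 1 ≤ m → 1 ≤ n → f (m * n) = f m * f n
  sum_zero : Tendsto (fun N : ℕ => ∑ n ∈ Icc 1 N, f n) atTop (𝓝 0)

/-- the partial sum `S_f(x) = ∑_{n ≤ x} f(n)` -/
noncomputable def partialSum (f : ℕ → ℂ) (x : ℝ) : ℂ := ∑ n ∈ Icc 1 ⌊x⌋₊, f n

/-- `S_f(x) = Ω(g(x))` in the Hardy–Littlewood sense: `S_f(x)` is not `o(g(x))` -/
def Omega (f : ℕ → ℂ) (g : ℝ → ℝ) : Prop := ¬ (fun x : ℝ => partialSum f x) =o[atTop] g

/-- the regular values at `p`: `|z| ≤ 1/p`, or `z` is real with `0 ≤ z ≤ 3 / (4 √p)` -/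
def Regular (p : ℕ) (z : ℂ) : Prop :=
  ‖z‖ ≤ 1 / p ∨ ∃ r : ℝ, 0 ≤ r ∧ r ≤ 3 / (4 * Real.sqrt p) ∧ z = r

open Classical in
/-- the excess of `f` at `p`: for a prime `p` such that `f(p)` is not a nonnegative real number,
`max (|f(p)| - 1/p, 0)`; otherwise `0` -/
noncomputable def excess (f : ℕ → ℂ) (p : ℕ) : ℝ :=
  if p.Prime ∧ ¬ ∃ r : ℝ, 0 ≤ r ∧ f p = r then max (‖f p‖ - 1 / p) 0 else 0

lemma reg_small {p : ℕ} (hp : p.Prime) {z : ℂ} (hz : Regular p z) :
    ‖z‖ * Real.sqrt p ≤ 3 / 4 := by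
  have hs := U112.CM.sq_prime p hp
  have hp0 : (0 : ℝ) < p := by exact_mod_cast hp.pos
  have hss : Real.sqrt p * Real.sqrt p = p := Real.mul_self_sqrt hp0.le
  have hs0 : 0 < Real.sqrt p := by linarith
  rcases hz with h | ⟨r, h0, h1, rfl⟩
  · calc ‖z‖ * Real.sqrt p ≤ 1 / p * Real.sqrt p := by gcongr
      _ ≤ 3 / 4 := by
        rw [div_mul_eq_mul_div, div_le_iff₀ hp0]
        nlinarith [mul_nonneg hs0.le (sub_nonneg.2 hs)]
  · rw [Complex.norm_real, Real.norm_of_nonneg h0]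
    rw [le_div_iff₀ (by positivity)] at h1
    linarith

theorem main (f : ℕ → ℂ) (hf : IsCMO f) (h : ℕ → ℂ)
    (hreg : ∀ p : ℕ, p.Prime → Regular p (h p) ∨ ((∃ r : ℝ, 0 ≤ r ∧ f p = r) ∧ h p = f p))
    (hs : Summable fun p : ℕ => if p.Prime then Real.sqrt p * ‖f p - h p‖ else 0) :
    Omega f (fun x => x ^ (-(1 / 2) : ℝ)) := by
  intro hcon
  have h2 := Pool.Agent.H280R3.MO.nat_of_real f _ hcon
  set F := Pool.Agent.H280R3.MO.toHom f hf.one hf.mul with hF
  have hFp : ∀ p : ℕ, p.Prime → F p = f p := fun p hp =>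
    Pool.Agent.H280R3.MO.toHom_apply f hf.one hf.mul p hp.one_le
  have h3 : (fun N : ℕ => Pool.Agent.H280R3.MO.S F N) =o[atTop]
      (fun N : ℕ => (N : ℝ) ^ (-(1 / 2) : ℝ)) :=
    h2.congr (fun N => (Pool.Agent.H280R3.MO.S_toHom f hf.one hf.mul N).symm) (fun N => rfl)
  have hh : ∀ p : ℕ, p.Prime → h p = F p ∨ ‖h p‖ * Real.sqrt p ≤ 3 / 4 := by
    intro p hp
    rcases hreg p hp with hr | ⟨-, he⟩
    · exact Or.inr (reg_small hp hr)
    · exact Or.inl (by rw [hFp p hp, he])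
  have hsum : Summable (U112.CM.ch F h) := by
    refine (hs.mul_left 4).congr fun p => ?_
    unfold U112.CM.ch
    by_cases hp : p.Prime
    · rw [if_pos hp, if_pos hp, hFp p hp, norm_sub_rev]
      ring
    · rw [if_neg hp, if_neg hp, mul_zero]
  have h4 := U112.CM.perturb F h hh hsum h3
  refine Pool.Agent.H280R3.MO.core (U112.CM.mk h) ?_ h4
  intro p hp
  rw [U112.CM.mk_prime _ p hp]
  rcases hreg p hp with hr | ⟨hr, he⟩
  · rcases hr with hr | ⟨r, h0, -, e⟩
    · exact Or.inl hr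
    · exact Or.inr ⟨r, h0, e⟩
  · right
    obtain ⟨r, h0, e⟩ := hr
    exact ⟨r, h0, by rw [he, e]⟩

/-- counterexamples to the question are stable -/
theorem stable (f : ℕ → ℂ) (hf : IsCMO f) (h : ℕ → ℂ)
    (hreg : ∀ p : ℕ, p.Prime → ‖h p‖ ≤ 3 / (4 * Real.sqrt p) ∨ h p = f p)
    (hs : Summable fun p : ℕ => if p.Prime then Real.sqrt p * ‖f p - h p‖ else 0)
    (hcon : ¬ Omega f (fun x => x ^ (-(1 / 2) : ℝ))) :
    ∃ g : ℕ → ℂ, IsCMO g ∧ (∀ p : ℕ, p.Prime → g p = h p) ∧
      ¬ Omega g (fun x => x ^ (-(1 / 2) : ℝ)) := by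
  have hcon' : (fun x : ℝ => partialSum f x) =o[atTop] fun x : ℝ => x ^ (-(1 / 2) : ℝ) := by
    unfold Omega at hcon
    exact not_not.1 hcon
  have h2 := Pool.Agent.H280R3.MO.nat_of_real f _ hcon'
  set F := Pool.Agent.H280R3.MO.toHom f hf.one hf.mul with hF
  have hFp : ∀ p : ℕ, p.Prime → F p = f p := fun p hp =>
    Pool.Agent.H280R3.MO.toHom_apply f hf.one hf.mul p hp.one_le
  have h3 : (fun N : ℕ => Pool.Agent.H280R3.MO.S F N) =o[atTop]
      (fun N : ℕ => (N : ℝ) ^ (-(1 / 2) : ℝ)) :=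
    h2.congr (fun N => (Pool.Agent.H280R3.MO.S_toHom f hf.one hf.mul N).symm) (fun N => rfl)
  have hh : ∀ p : ℕ, p.Prime → h p = F p ∨ ‖h p‖ * Real.sqrt p ≤ 3 / 4 := by
    intro p hp
    rcases hreg p hp with hr | he
    · right
      have hp0 : (0 : ℝ) < p := by exact_mod_cast hp.pos
      have hs0 : 0 < Real.sqrt p := Real.sqrt_pos.2 hp0
      rw [le_div_iff₀ (by positivity)] at hr
      linarith
    · exact Or.inl (by rw [hFp p hp, he])
  have hsum : Summable (U112.CM.ch F h) := by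
    refine (hs.mul_left 4).congr fun p => ?_
    unfold U112.CM.ch
    by_cases hp : p.Prime
    · rw [if_pos hp, if_pos hp, hFp p hp, norm_sub_rev]
      ring
    · rw [if_neg hp, if_neg hp, mul_zero]
  have h4 := U112.CM.perturb F h hh hsum h3
  have h0 : Tendsto (fun N : ℕ => (N : ℝ) ^ (-(1 / 2) : ℝ)) atTop (𝓝 0) :=
    (tendsto_rpow_neg_atTop (by norm_num)).comp tendsto_natCast_atTop_atTop
  refine ⟨fun n => U112.CM.mk h n, ⟨map_one _, fun m n _ _ => map_mul _ m n, ?_⟩,
    fun p hp => U112.CM.mk_prime h p hp, ?_⟩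
  · exact h4.isBigO.trans_tendsto h0
  · unfold Omega
    rw [not_not]
    have h5 := h4.comp_tendsto (tendsto_nat_floor_atTop (α := ℝ))
    refine IsLittleO.trans_isBigO (g := fun x : ℝ => ((⌊x⌋₊ : ℕ) : ℝ) ^ (-(1 / 2) : ℝ)) h5 ?_
    refine IsBigO.of_bound 2 ?_
    filter_upwards [eventually_ge_atTop (1 : ℝ)] with x hx
    have hx0 : 0 < x := by linarith
    have h6 : 1 ≤ ⌊x⌋₊ := (Nat.one_le_floor_iff x).2 hx
    have h7 : (1 : ℝ) ≤ ((⌊x⌋₊ : ℕ) : ℝ) := by exact_mod_cast h6
    have h8 : x < (⌊x⌋₊ : ℝ) + 1 := Nat.lt_floor_add_one x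
    rw [Real.norm_of_nonneg (by positivity), Real.norm_of_nonneg (by positivity)]
    calc ((⌊x⌋₊ : ℕ) : ℝ) ^ (-(1 / 2) : ℝ) ≤ (x / 4) ^ (-(1 / 2) : ℝ) :=
          Real.rpow_le_rpow_of_nonpos (by positivity) (by linarith) (by norm_num)
      _ = 2 * x ^ (-(1 / 2) : ℝ) := by
          rw [Real.div_rpow hx0.le (by norm_num), Real.rpow_neg (by norm_num : (0 : ℝ) ≤ 4),
            ← Real.sqrt_eq_rpow, show (4 : ℝ) = 2 ^ 2 by norm_num, Real.sqrt_sq (by norm_num)]
          field_simp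

/-- the nearest value in the disc -/
noncomputable def near (f : ℕ → ℂ) (p : ℕ) : ℂ :=
  if 0 < excess f p then ((1 / (p * ‖f p‖) : ℝ) : ℂ) * f p else f p

lemma excess_nonneg (f : ℕ → ℂ) (p : ℕ) : 0 ≤ excess f p := by
  unfold excess
  split_ifs
  · exact le_max_right _ _
  · exact le_rfl

/-- a prime with positive excess -/
lemma pos_excess (f : ℕ → ℂ) (p : ℕ) (h : 0 < excess f p) :
    p.Prime ∧ excess f p = ‖f p‖ - 1 / p ∧ 0 < ‖f p‖ := by
  unfold excess at h
  split_ifs at h with hc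
  · have hp0 : (0 : ℝ) < p := by exact_mod_cast hc.1.pos
    have h1 : 0 < ‖f p‖ - 1 / p := by
      rcases lt_max_iff.1 h with h' | h'
      · exact h'
      · exact absurd h' (lt_irrefl _)
    refine ⟨hc.1, ?_, ?_⟩
    · unfold excess
      rw [if_pos hc, max_eq_left h1.le]
    · have : 0 < 1 / (p : ℝ) := by positivity
      linarith
  · exact absurd h (lt_irrefl _)

lemma near_norm (f : ℕ → ℂ) (p : ℕ) (h : 0 < excess f p) : ‖near f p‖ = 1 / p := by
  obtain ⟨hp, -, hf⟩ := pos_excess f p h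
  have hp0 : (0 : ℝ) < p := by exact_mod_cast hp.pos
  unfold near
  rw [if_pos h, norm_mul, Complex.norm_real, Real.norm_of_nonneg (by positivity)]
  field_simp

lemma near_diff (f : ℕ → ℂ) (p : ℕ) : ‖near f p - f p‖ = excess f p := by
  by_cases h : 0 < excess f p
  · obtain ⟨hp, he, hf⟩ := pos_excess f p h
    have hp0 : (0 : ℝ) < p := by exact_mod_cast hp.pos
    unfold near
    rw [if_pos h]
    have e : ((1 / (p * ‖f p‖) : ℝ) : ℂ) * f p - f p = ((1 / (p * ‖f p‖) - 1 : ℝ) : ℂ) * f p := by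
      push_cast
      ring
    rw [e, norm_mul, Complex.norm_real, Real.norm_eq_abs]
    have h2 : 1 / (p * ‖f p‖) ≤ 1 := by
      rw [div_le_one (by positivity)]
      have h3 : 1 / (p : ℝ) ≤ ‖f p‖ := by linarith [h]
      rw [div_le_iff₀ hp0] at h3
      linarith
    rw [abs_of_nonpos (by linarith), he]
    field_simp
    ring
  · have h0 : excess f p = 0 := le_antisymm (not_lt.1 h) (excess_nonneg f p)
    unfold near
    rw [if_neg h, sub_self, norm_zero, h0]

theorem result (f : ℕ → ℂ) (hf : IsCMO f) :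
    (∀ h : ℕ → ℂ,
      (∀ p : ℕ, p.Prime → Regular p (h p) ∨ ((∃ r : ℝ, 0 ≤ r ∧ f p = r) ∧ h p = f p)) →
      (Summable fun p : ℕ => if p.Prime then Real.sqrt p * ‖f p - h p‖ else 0) →
      Omega f (fun x => x ^ (-(1 / 2) : ℝ))) ∧
    ((Summable fun p : ℕ => Real.sqrt p * excess f p) →
      Omega f (fun x => x ^ (-(1 / 2) : ℝ))) ∧
    (∀ h : ℕ → ℂ, (∀ p : ℕ, p.Prime → ‖h p‖ ≤ 3 / (4 * Real.sqrt p) ∨ h p = f p) →
      (Summable fun p : ℕ => if p.Prime then Real.sqrt p * ‖f p - h p‖ else 0) →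
      ¬ Omega f (fun x => x ^ (-(1 / 2) : ℝ)) →
      ∃ g : ℕ → ℂ, IsCMO g ∧ (∀ p : ℕ, p.Prime → g p = h p) ∧
        ¬ Omega g (fun x => x ^ (-(1 / 2) : ℝ))) := by
  refine ⟨fun h hreg hs => main f hf h hreg hs, fun hs => main f hf (near f) ?_ ?_,
    fun h hreg hs hcon => stable f hf h hreg hs hcon⟩
  · intro p hp
    by_cases h : 0 < excess f p
    · left
      left
      rw [near_norm f p h]
    · have h0 : excess f p = 0 := le_antisymm (not_lt.1 h) (excess_nonneg f p)
      have e : near f p = f p := by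
        unfold near
        rw [if_neg h]
      by_cases hr : ∃ r : ℝ, 0 ≤ r ∧ f p = r
      · exact Or.inr ⟨hr, e⟩
      · left
        left
        rw [e]
        unfold excess at h0
        rw [if_pos ⟨hp, hr⟩] at h0
        have := le_max_left (‖f p‖ - 1 / (p : ℝ)) 0
        linarith
  · refine hs.congr fun p => ?_
    by_cases hp : p.Prime
    · rw [if_pos hp, norm_sub_rev, near_diff]
    · rw [if_neg hp]
      unfold excess
      rw [if_neg (fun h => hp h.1), mul_zero]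

end Pool.Agent.Results.MP_768c9c_nt.NearRegularValues
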