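import Mathlib
import Pool.Agent.U236.CMO

/-!
# MP_768c9c_nt: CMO functions which are small at the primes on average

Let `f` be a CMO function with `∑_p |f(p)| p^(-s) ≤ θ log(1/s) + C` for `0 < s ≤ 1`, with some `θ < 1`.
Then `∑ |S_f(n)|/n` diverges; so `S_f(x)` is not `O(x^(-δ))` for any `δ > 0`.

Proof: if the sum converges then `F(s) = ∑ f(n) n^(-s)` is `O(s)` as `s → 0+`, but the Euler product
converges absolutely and is at least a constant times `s^θ`.
-/

set_option autoImplicit false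

namespace Pool.Agent.Results.MP_768c9c_nt.SmallOnAverage

open Filter Topology Finset

/-- `f` (only its values at `n ≥ 1` matter) is a CMO function: completely multiplicative, with
`∑ f(n)` convergent to `0` -/
structure IsCMO (f : ℕ → ℂ) : Prop where
  one : f 1 = 1
  mul : ∀ m n : ℕ, 1 ≤ m → 1 ≤ n → f (m * n) = f m * f n
  sum_zero : Tendsto (fun N : ℕ => ∑ n ∈ Icc 1 N, f n) atTop (𝓝 0)

/-- the partial sum `S_f(x) = ∑_{n ≤ x} f(n)` -/
noncomputable def partialSum (f : ℕ → ℂ) (x : ℝ) : ℂ := ∑ n ∈ Icc 1 ⌊x⌋₊, f n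

/-- Let `f` be a CMO function such that for some `θ < 1` and some `C₀` the sum of `|f(p)| p^(-s)` over every
finite set of primes is at most `θ log(1/s) + C₀`, for `0 < s ≤ 1`. Then `∑ |S_f(n)|/n`
diverges, and for all `δ > 0` and all `C` there are arbitrarily large `x` with `|S_f(x)| > C x^(-δ)`. -/
theorem result (f : ℕ → ℂ) (hf : IsCMO f) (θ C₀ : ℝ) (hθ : θ < 1)
    (hsum : ∀ s : ℝ, 0 < s → s ≤ 1 → ∀ T : Finset Nat.Primes,
      ∑ p ∈ T, ‖f p‖ * ((p : ℕ) : ℝ) ^ (-s) ≤ θ * Real.log (1 / s) + C₀) :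
    ¬ Summable (fun n : ℕ => ‖partialSum f n‖ / n) ∧
    ∀ δ C : ℝ, 0 < δ → ∃ᶠ x : ℝ in atTop, C * x ^ (-δ) < ‖partialSum f x‖ := by
  have ps : ∀ n : ℕ, partialSum f (n : ℝ) = ∑ k ∈ Icc 1 n, f k := by
    intro n
    unfold partialSum
    rw [Nat.floor_natCast]
  have first : ¬ Summable (fun n : ℕ => ‖partialSum f n‖ / n) := by
    intro hS
    have hS' : Summable (fun n : ℕ => ‖∑ k ∈ Icc 1 n, f k‖ / n) := by
      refine hS.congr fun n => ?_
      rw [ps]
    exact Pool.Agent.U236.CMO.cmo f hf.one hf.mul hf.sum_zero hS' θ C₀ hθ hsum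
  refine ⟨first, fun δ C hδ => ?_⟩
  by_contra hcon
  rw [not_frequently] at hcon
  apply first
  have hg : Summable (fun n : ℕ => |C| * (n : ℝ) ^ (-(1 + δ))) :=
    (Real.summable_nat_rpow.2 (by linarith)).mul_left |C|
  obtain ⟨x0, hx0⟩ := eventually_atTop.1 hcon
  refine Summable.of_norm_bounded_eventually_nat hg ?_
  filter_upwards [eventually_ge_atTop (⌈x0⌉₊ + 1)] with n hn
  have hn1 : (1 : ℝ) ≤ n := by exact_mod_cast (by omega : 1 ≤ n)
  have hn0 : (0 : ℝ) < n := by linarith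
  have hx : x0 ≤ n := (Nat.le_ceil x0).trans (by exact_mod_cast (by omega : ⌈x0⌉₊ ≤ n))
  have h2 := not_lt.1 (hx0 n hx)
  rw [Real.norm_of_nonneg (by positivity), div_le_iff₀ hn0]
  have h3 : (n : ℝ) ^ (-(1 + δ)) * n = (n : ℝ) ^ (-δ) := by
    rw [show -(1 + δ) = -δ - 1 by ring, Real.rpow_sub hn0, Real.rpow_one]
    field_simp
  calc ‖partialSum f n‖ ≤ C * (n : ℝ) ^ (-δ) := h2
    _ ≤ |C| * (n : ℝ) ^ (-δ) :=
        mul_le_mul_of_nonneg_right (le_abs_self _) (Real.rpow_nonneg hn0.le _)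
    _ = |C| * (n : ℝ) ^ (-(1 + δ)) * n := by rw [← h3]; ring

end Pool.Agent.Results.MP_768c9c_nt.SmallOnAverage
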